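import Mathlib
import Pool.Agent.Helper947.Zar.Defs
import Pool.Agent.Helper947.Zar.Z11

namespace Pool.Agent.Results.MP_4fa782_ag.SaturationCompletion

open Pool.Agent.Helper947.Zar

/-- Saturation and completion do not commute: there is a pair `{o, R}` satisfying (A), (B), (C),
with `R` of Krull dimension `2`, such that `o` is saturated with respect to the fraction field of
`R` (so that the completion of its saturation is the completion of `o`), while the completion of
`o` is strictly smaller than its saturation with respect to the fraction field of the completion
of `R`. -/
theorem result : ∃ (R o Rh oh : Type) (_ : CommRing R) (_ : IsDomain R) (_ : CommRing o)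
    (_ : CommRing Rh) (_ : IsDomain Rh) (_ : CommRing oh) (_ : Algebra R o) (_ : Algebra Rh oh)
    (_ : Algebra R Rh) (_ : Algebra o oh) (_ : Algebra R oh) (_ : IsScalarTower R Rh oh)
    (_ : IsScalarTower R o oh),
    IsPair R o ∧ ringKrullDim R = 2 ∧ IsCompletion R Rh ∧ IsCompletion o oh ∧
    saturation R o = self o ∧ self oh < saturation Rh oh :=
  ⟨RR, DR.TT, PP, DP.TT, inferInstance, inferInstance, inferInstance, inferInstance, inferInstance,
    inferInstance, inferInstance, inferInstance, inferInstance, inferInstance, inferInstance,
    tow1, tow2, pair_R, dim_R, completion_RP, completion_TT, sat_R, sat_P⟩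

end Pool.Agent.Results.MP_4fa782_ag.SaturationCompletion
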